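import Pool.Agent.W214.BA.Dual1

/-!
# BA-DUAL, part 2: duality
-/

set_option autoImplicit false

open MeasureTheory Set Filter Topology
open scoped SchwartzMap FourierTransform ENNReal ContDiff

namespace Pool.Agent.W214.BA

open Pool.Agent.W779.Morrey Pool.Agent.W802.BA

/-- the regularised power -/
noncomputable def kp (q ε r : ℝ) : ℝ := r * (r ^ 2 + ε ^ 2) ^ ((q - 2) / 2)

lemma kp_nonneg {q ε r : ℝ} (hr : 0 ≤ r) : 0 ≤ kp q ε r :=
  mul_nonneg hr (Real.rpow_nonneg (by positivity) _)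

lemma kp_le {q ε r K : ℝ} (hq : 1 < q) (h0 : 0 < ε) (h1 : ε ≤ 1) (hr : 0 ≤ r) (hK : r ≤ K) :
    kp q ε r ≤ (K ^ 2 + 1) ^ ((q - 1) / 2) := by
  have hb : 0 < r ^ 2 + ε ^ 2 := by positivity
  have h2 : r ≤ (r ^ 2 + ε ^ 2) ^ ((1 : ℝ) / 2) := by
    rw [← Real.sqrt_eq_rpow]
    exact Real.le_sqrt_of_sq_le (by nlinarith)
  calc kp q ε r ≤ (r ^ 2 + ε ^ 2) ^ ((1 : ℝ) / 2) * (r ^ 2 + ε ^ 2) ^ ((q - 2) / 2) :=
        mul_le_mul_of_nonneg_right h2 (Real.rpow_nonneg hb.le _)
    _ = (r ^ 2 + ε ^ 2) ^ ((q - 1) / 2) := by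
        rw [← Real.rpow_add hb]
        congr 1
        ring
    _ ≤ (K ^ 2 + 1) ^ ((q - 1) / 2) := by
        refine Real.rpow_le_rpow hb.le ?_ (by linarith)
        nlinarith

lemma kp_lim {q r : ℝ} (hq : 1 < q) (hr : 0 ≤ r) :
    Tendsto (fun k : ℕ => kp q (1 / ((k : ℝ) + 1)) r) atTop (𝓝 (r ^ (q - 1))) := by
  rcases hr.eq_or_lt with h | h
  · subst h
    have h1 : (0 : ℝ) ^ (q - 1) = 0 := Real.zero_rpow (by linarith)
    rw [h1]
    unfold kp
    simp
  · have h1 : Tendsto (fun k : ℕ => r ^ 2 + (1 / ((k : ℝ) + 1)) ^ 2) atTop (𝓝 (r ^ 2)) := by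
      have := (tendsto_one_div_add_atTop_nhds_zero_nat (𝕜 := ℝ)).pow 2
      simpa using this.const_add (r ^ 2)
    have h2 := (h1.rpow_const (p := (q - 2) / 2) (Or.inl (by positivity))).const_mul r
    have h3 : r * (r ^ 2) ^ ((q - 2) / 2) = r ^ (q - 1) := by
      rw [← Real.rpow_natCast, ← Real.rpow_mul hr]
      nth_rewrite 1 [← Real.rpow_one r]
      rw [← Real.rpow_add h]
      congr 1
      push_cast
      ring
    rw [h3] at h2
    exact h2

lemma cutn_nonneg (n : ℕ) (z : ℂ) : 0 ≤ cutn n z := cut.nonneg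

lemma cutn_le_one (n : ℕ) (z : ℂ) : cutn n z ≤ 1 := cut.le_one

lemma cutn_cont (n : ℕ) : Continuous (cutn n) := (contDiff_cutn n (m := 0)).continuous

lemma cutn_int (n : ℕ) : Integrable (cutn n) :=
  (cutn_cont n).integrable_of_hasCompactSupport (cutn_support n)

section

variable (u : ℂ → ℂ) (hu : ContDiff ℝ ∞ u) (q ε : ℝ) (n : ℕ)

/-- the test function -/
noncomputable def tf (z : ℂ) : ℂ :=
  cutn n z • ((((‖u z‖ ^ 2 + ε ^ 2) ^ ((q - 2) / 2) : ℝ)) • starRingEnd ℂ (u z))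

variable {u ε}

include hu in
lemma tf_contDiff (hε : 0 < ε) : ContDiff ℝ ∞ (tf u q ε n) := by
  have h1 : ContDiff ℝ ∞ (fun z => ((‖u z‖ ^ 2 + ε ^ 2) ^ ((q - 2) / 2) : ℝ)) := by
    refine ContDiff.rpow_const_of_ne ?_ (fun z => ?_)
    · exact (hu.norm_sq ℝ).add contDiff_const
    · positivity
  have h2 : ContDiff ℝ ∞ (fun z => starRingEnd ℂ (u z)) := Complex.conjCLE.contDiff.comp hu
  have h3 : ContDiff ℝ ∞ (cutn n) := contDiff_cutn n
  exact h3.smul (h1.smul h2)

lemma tf_support : HasCompactSupport (tf u q ε n) :=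
  (cutn_support n).smul_right

lemma tf_norm (z : ℂ) : ‖tf u q ε n z‖ = cutn n z * kp q ε ‖u z‖ := by
  unfold tf kp
  rw [norm_smul, norm_smul, RCLike.norm_conj, Real.norm_eq_abs, Real.norm_eq_abs,
    abs_of_nonneg (cutn_nonneg n z), abs_of_nonneg (Real.rpow_nonneg (by positivity) _)]
  ring

lemma tf_mul (z : ℂ) : u z * tf u q ε n z = ((cutn n z * (‖u z‖ * kp q ε ‖u z‖) : ℝ) : ℂ) := by
  unfold tf kp
  rw [Complex.real_smul, Complex.real_smul]
  have h : u z * starRingEnd ℂ (u z) = ((‖u z‖ ^ 2 : ℝ) : ℂ) := by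
    rw [Complex.mul_conj, Complex.normSq_eq_norm_sq]
  push_cast at h ⊢
  linear_combination ((cutn n z : ℂ) * (((‖u z‖ ^ 2 + ε ^ 2) ^ ((q - 2) / 2) : ℝ) : ℂ)) * h

end

/-- the basic inequality for the regularised test functions -/
lemma ineq_eps {p q C : ℝ} (hp : 1 < p) (hq : 1 < q) (hpq : 1 / p + 1 / q = 1) (hC : 0 ≤ C)
    (H : ∀ f : 𝓢(ℂ, ℂ), eLpNorm (Beu f) (ENNReal.ofReal p) (volume : Measure ℂ)
      ≤ ENNReal.ofReal C * eLpNorm f (ENNReal.ofReal p) (volume : Measure ℂ))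
    (f : 𝓢(ℂ, ℂ)) (n : ℕ) {ε : ℝ} (hε : 0 < ε) :
    ∫ z, cutn n z * (‖Beu f z‖ * kp q ε ‖Beu f z‖) ≤
      (C * (eLpNorm f (ENNReal.ofReal q) volume).toReal) *
        (∫ z, (cutn n z * kp q ε ‖Beu f z‖) ^ p) ^ (1 / p) := by
  have hu := Beu_contDiff f
  set h : 𝓢(ℂ, ℂ) := (tf_support (u := Beu f) (ε := ε) q n).toSchwartzMap
    (tf_contDiff hu q n hε) with hh
  have hap : ∀ z, h z = tf (Beu f) q ε n z := fun z => rfl
  have h1 := pairing hp hq hpq hC H f h
  have h2 : ∫ z, Beu f z * h z = ((∫ z, cutn n z * (‖Beu f z‖ * kp q ε ‖Beu f z‖) : ℝ) : ℂ) := by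
    rw [← integral_complex_ofReal]
    refine integral_congr_ae (Eventually.of_forall fun z => ?_)
    simp only [hap]
    exact tf_mul q n z
  have h3 : (eLpNorm h (ENNReal.ofReal p) volume).toReal =
      (∫ z, (cutn n z * kp q ε ‖Beu f z‖) ^ p) ^ (1 / p) := by
    have hp0 : ENNReal.ofReal p ≠ 0 := by
      rw [Ne, ENNReal.ofReal_eq_zero]; linarith
    rw [(h.memLp (ENNReal.ofReal p) volume).eLpNorm_eq_integral_rpow_norm hp0
      ENNReal.ofReal_ne_top, ENNReal.toReal_ofReal (by positivity),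
      ENNReal.toReal_ofReal (by linarith), one_div]
    congr 1
    refine integral_congr_ae (Eventually.of_forall fun z => ?_)
    simp only [hap, tf_norm]
  rw [h2, h3] at h1
  rw [Complex.norm_real] at h1
  exact (Real.le_norm_self _).trans h1

/-- the transform is bounded -/
lemma Beu_bdd (f : 𝓢(ℂ, ℂ)) : ∃ K : ℝ, ∀ z, ‖Beu f z‖ ≤ K := by
  refine ⟨∫ ξ, ‖ph f ξ‖, fun z => ?_⟩
  rw [Beu_eq, Real.fourierInv_eq]
  refine (norm_integral_le_integral_norm _).trans (le_of_eq ?_)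
  refine integral_congr_ae (Eventually.of_forall fun ξ => ?_)
  simp

theorem dual : S_Dual := by
  intro p q C hp hq hpq hC H f
  have hu := Beu_contDiff f
  have hp0 : 0 < p := by linarith
  have hq0 : 0 < q := by linarith
  have huc : Continuous (Beu f) := hu.continuous
  obtain ⟨K, hK⟩ := Beu_bdd f
  set C' : ℝ := C * (eLpNorm f (ENNReal.ofReal q) volume).toReal with hC'
  have hC'0 : 0 ≤ C' := mul_nonneg hC ENNReal.toReal_nonneg
  have hfne : eLpNorm f (ENNReal.ofReal q) (volume : Measure ℂ) ≠ ⊤ :=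
    (f.memLp (ENNReal.ofReal q) volume).2.ne
  have hgoal : ENNReal.ofReal C * eLpNorm f (ENNReal.ofReal q) volume = ENNReal.ofReal C' := by
    rw [hC', ENNReal.ofReal_mul hC, ENNReal.ofReal_toReal hfne]
  rw [hgoal]
  set D : ℝ := (K ^ 2 + 1) ^ ((q - 1) / 2) with hD
  have hD0 : 0 ≤ D := Real.rpow_nonneg (by positivity) _
  have hK0 : 0 ≤ K := (norm_nonneg _).trans (hK 0)
  have hε : ∀ k : ℕ, 0 < 1 / ((k : ℝ) + 1) := fun k => by positivity
  have hε1 : ∀ k : ℕ, 1 / ((k : ℝ) + 1) ≤ 1 := fun k => by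
    rw [div_le_one (by positivity)]
    have : (0 : ℝ) ≤ k := Nat.cast_nonneg k
    linarith
  have hkc : ∀ k : ℕ, Continuous (fun z => kp q (1 / ((k : ℝ) + 1)) ‖Beu f z‖) := by
    intro k
    unfold kp
    refine huc.norm.mul ?_
    refine Continuous.rpow_const ((huc.norm.pow 2).add continuous_const) (fun z => Or.inl ?_)
    have := hε k
    positivity
  have hkb : ∀ (k : ℕ) (z : ℂ), kp q (1 / ((k : ℝ) + 1)) ‖Beu f z‖ ≤ D := fun k z =>
    kp_le hq (hε k) (hε1 k) (norm_nonneg _) (hK z)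
  have hk0 : ∀ (k : ℕ) (z : ℂ), 0 ≤ kp q (1 / ((k : ℝ) + 1)) ‖Beu f z‖ := fun k z =>
    kp_nonneg (norm_nonneg _)
  have hwq : ∀ w : ℝ, 0 ≤ w → w * w ^ (q - 1) = w ^ q := by
    intro w hw
    rcases hw.eq_or_lt with h | h
    · rw [← h, zero_mul, Real.zero_rpow hq0.ne']
    · nth_rewrite 1 [← Real.rpow_one w]
      rw [← Real.rpow_add h]
      congr 1
      ring
  have hqp : (q - 1) * p = q := by
    have h1 : p ≠ 0 := hp0.ne'
    have h2 : q ≠ 0 := hq0.ne'
    field_simp at hpq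
    linarith
  -- the inequality for the cutoffs
  have hI : ∀ n : ℕ, ∫ z, cutn n z * ‖Beu f z‖ ^ q ≤ C' ^ q := by
    intro n
    set I0 : ℝ := ∫ z, cutn n z * ‖Beu f z‖ ^ q with hI0
    have hI0n : 0 ≤ I0 := integral_nonneg fun z =>
      mul_nonneg (cutn_nonneg n z) (Real.rpow_nonneg (norm_nonneg _) _)
    have hlim1 : Tendsto (fun k : ℕ => ∫ z, cutn n z * (‖Beu f z‖ *
        kp q (1 / ((k : ℝ) + 1)) ‖Beu f z‖)) atTop (𝓝 I0) := by
      refine tendsto_integral_of_dominated_convergence (fun z => cutn n z * (K * D)) (fun k => ?_)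
        ((cutn_int n).mul_const _) (fun k => Eventually.of_forall fun z => ?_)
        (Eventually.of_forall fun z => ?_)
      · exact ((cutn_cont n).mul (huc.norm.mul (hkc k))).aestronglyMeasurable
      · rw [Real.norm_eq_abs, abs_of_nonneg (mul_nonneg (cutn_nonneg n z)
          (mul_nonneg (norm_nonneg _) (hk0 k z)))]
        refine mul_le_mul_of_nonneg_left ?_ (cutn_nonneg n z)
        exact mul_le_mul (hK z) (hkb k z) (hk0 k z) hK0
      · have h1 := ((kp_lim hq (norm_nonneg (Beu f z))).const_mul ‖Beu f z‖).const_mul (cutn n z)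
        rw [hwq _ (norm_nonneg _)] at h1
        exact h1
    have hlim2 : Tendsto (fun k : ℕ => ∫ z, (cutn n z *
        kp q (1 / ((k : ℝ) + 1)) ‖Beu f z‖) ^ p) atTop
        (𝓝 (∫ z, (cutn n z * ‖Beu f z‖ ^ (q - 1)) ^ p)) := by
      refine tendsto_integral_of_dominated_convergence (fun z => cutn n z * D ^ p) (fun k => ?_)
        ((cutn_int n).mul_const _) (fun k => Eventually.of_forall fun z => ?_)
        (Eventually.of_forall fun z => ?_)
      · exact (((cutn_cont n).mul (hkc k)).rpow_const (fun z => Or.inr hp0.le)).aestronglyMeasurable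
      · rw [Real.norm_eq_abs, abs_of_nonneg (Real.rpow_nonneg (mul_nonneg (cutn_nonneg n z)
          (hk0 k z)) _), Real.mul_rpow (cutn_nonneg n z) (hk0 k z)]
        refine mul_le_mul ?_ (Real.rpow_le_rpow (hk0 k z) (hkb k z) hp0.le)
          (Real.rpow_nonneg (hk0 k z) _) (cutn_nonneg n z)
        exact (Real.rpow_le_rpow_of_exponent_ge' (cutn_nonneg n z) (cutn_le_one n z) zero_le_one
          hp.le).trans (le_of_eq (Real.rpow_one _))
      · have h1 := (kp_lim hq (norm_nonneg (Beu f z))).const_mul (cutn n z)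
        exact h1.rpow_const (Or.inr hp0.le)
    have hN : ∫ z, (cutn n z * ‖Beu f z‖ ^ (q - 1)) ^ p ≤ I0 := by
      have hcq : Continuous (fun z => ‖Beu f z‖ ^ (q - 1)) :=
        huc.norm.rpow_const (fun z => Or.inr (by linarith))
      have hcq2 : Continuous (fun z => ‖Beu f z‖ ^ q) :=
        huc.norm.rpow_const (fun z => Or.inr hq0.le)
      refine integral_mono_of_nonneg (Eventually.of_forall fun z => Real.rpow_nonneg
        (mul_nonneg (cutn_nonneg n z) (Real.rpow_nonneg (norm_nonneg _) _)) _) ?_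
        (Eventually.of_forall fun z => ?_)
      · exact ((cutn_cont n).mul hcq2).integrable_of_hasCompactSupport
          ((cutn_support n).mul_right)
      · simp only
        rw [Real.mul_rpow (cutn_nonneg n z) (Real.rpow_nonneg (norm_nonneg _) _),
          ← Real.rpow_mul (norm_nonneg _), hqp]
        refine mul_le_mul_of_nonneg_right ?_ (Real.rpow_nonneg (norm_nonneg _) _)
        exact (Real.rpow_le_rpow_of_exponent_ge' (cutn_nonneg n z) (cutn_le_one n z) zero_le_one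
          hp.le).trans (le_of_eq (Real.rpow_one _))
    have hN0 : 0 ≤ ∫ z, (cutn n z * ‖Beu f z‖ ^ (q - 1)) ^ p := integral_nonneg fun z =>
      Real.rpow_nonneg (mul_nonneg (cutn_nonneg n z) (Real.rpow_nonneg (norm_nonneg _) _)) _
    have h1 : I0 ≤ C' * (∫ z, (cutn n z * ‖Beu f z‖ ^ (q - 1)) ^ p) ^ (1 / p) := by
      refine le_of_tendsto_of_tendsto' hlim1 ((hlim2.rpow_const (p := 1 / p)
        (Or.inr (by positivity))).const_mul C') (fun k => ?_)
      exact ineq_eps hp hq hpq hC H f n (hε k)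
    have h2 : I0 ≤ C' * I0 ^ (1 / p) := h1.trans (mul_le_mul_of_nonneg_left
      (Real.rpow_le_rpow hN0 hN (by positivity)) hC'0)
    rcases hI0n.eq_or_lt with h3 | h3
    · rw [← h3]
      exact Real.rpow_nonneg hC'0 _
    · have h4 : I0 ^ (1 / q) ≤ C' := by
        have h5 : I0 ^ (1 / q) * I0 ^ (1 / p) = I0 := by
          rw [← Real.rpow_add h3, add_comm, hpq, Real.rpow_one]
        have h6 : 0 < I0 ^ (1 / p) := Real.rpow_pos_of_pos h3 _
        rw [← h5] at h2
        nth_rewrite 2 [h5] at h2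
        exact le_of_mul_le_mul_right h2 h6
      calc I0 = (I0 ^ (1 / q)) ^ q := by
            rw [← Real.rpow_mul hI0n, one_div, inv_mul_cancel₀ hq0.ne', Real.rpow_one]
        _ ≤ C' ^ q := Real.rpow_le_rpow (Real.rpow_nonneg hI0n _) h4 hq0.le
  -- the limit
  have hqe0 : ENNReal.ofReal q ≠ 0 := by
    rw [Ne, ENNReal.ofReal_eq_zero]; linarith
  refine Lp.eLpNorm_le_of_ae_tendsto (u := atTop) (f := fun n z => cutn n z • Beu f z)
    (Eventually.of_forall fun n => ?_) (fun n => ((cutn_cont n).smul huc).aestronglyMeasurable)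
    (Eventually.of_forall fun z => ?_)
  · have hcs : HasCompactSupport (fun z => cutn n z • Beu f z) := (cutn_support n).smul_right
    have hmem : MemLp (fun z => cutn n z • Beu f z) (ENNReal.ofReal q) volume :=
      ((cutn_cont n).smul huc).memLp_of_hasCompactSupport hcs
    rw [hmem.eLpNorm_eq_integral_rpow_norm hqe0 ENNReal.ofReal_ne_top,
      ENNReal.toReal_ofReal hq0.le]
    refine ENNReal.ofReal_le_ofReal ?_
    have h7 : ∫ z, ‖cutn n z • Beu f z‖ ^ q ≤ C' ^ q := by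
      refine le_trans ?_ (hI n)
      have hcq2 : Continuous (fun z => ‖Beu f z‖ ^ q) :=
        huc.norm.rpow_const (fun z => Or.inr hq0.le)
      refine integral_mono_of_nonneg (Eventually.of_forall fun z => Real.rpow_nonneg
        (norm_nonneg _) _) ?_ (Eventually.of_forall fun z => ?_)
      · exact ((cutn_cont n).mul hcq2).integrable_of_hasCompactSupport
          ((cutn_support n).mul_right)
      · simp only
        rw [norm_smul, Real.norm_eq_abs, abs_of_nonneg (cutn_nonneg n z),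
          Real.mul_rpow (cutn_nonneg n z) (norm_nonneg _)]
        refine mul_le_mul_of_nonneg_right ?_ (Real.rpow_nonneg (norm_nonneg _) _)
        exact (Real.rpow_le_rpow_of_exponent_ge' (cutn_nonneg n z) (cutn_le_one n z) zero_le_one
          hq.le).trans (le_of_eq (Real.rpow_one _))
    calc (∫ z, ‖cutn n z • Beu f z‖ ^ q) ^ q⁻¹ ≤ (C' ^ q) ^ q⁻¹ :=
          Real.rpow_le_rpow (integral_nonneg fun z => Real.rpow_nonneg (norm_nonneg _) _) h7
            (inv_nonneg.2 hq0.le)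
      _ = C' := by rw [← Real.rpow_mul hC'0, mul_inv_cancel₀ hq0.ne', Real.rpow_one]
  · refine tendsto_const_nhds.congr' ?_
    filter_upwards [cutn_tendsto z] with n hn
    rw [hn, one_smul]

end Pool.Agent.W214.BA
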