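import Pool.Agent.W802.BA.Stms
import Pool.Agent.W779.Morrey.BeurlingNorm

/-!
# BA-DUAL, part 1: symmetry, smoothness, the pairing
-/

set_option autoImplicit false

open MeasureTheory Set Filter Topology
open scoped SchwartzMap FourierTransform ENNReal ContDiff

namespace Pool.Agent.W214.BA

open Pool.Agent.W779.Morrey Pool.Agent.W802.BA

/-- the multiplier -/
noncomputable def mm (ξ : ℂ) : ℂ := starRingEnd ℂ ξ / ξ

lemma mm_norm (ξ : ℂ) : ‖mm ξ‖ ≤ 1 := by
  unfold mm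
  rw [norm_div, RCLike.norm_conj]
  exact div_self_le_one _

lemma mm_neg (ξ : ℂ) : mm (-ξ) = mm ξ := by
  unfold mm
  rw [map_neg, neg_div_neg_eq]

lemma mm_meas : Measurable mm := by
  unfold mm
  exact (Complex.continuous_conj.measurable).div measurable_id

/-- the Fourier transform of `Beu f` -/
noncomputable def ph (f : 𝓢(ℂ, ℂ)) (ξ : ℂ) : ℂ := mm ξ * 𝓕 (f : ℂ → ℂ) ξ

lemma ph_eq (f : 𝓢(ℂ, ℂ)) (ξ : ℂ) : ph f ξ = mm ξ * (𝓕 f : 𝓢(ℂ, ℂ)) ξ := by
  rw [ph, SchwartzMap.fourier_coe]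

lemma ph_meas (f : 𝓢(ℂ, ℂ)) : AEStronglyMeasurable (ph f) (volume : Measure ℂ) := by
  have h : ph f = fun ξ => mm ξ * (𝓕 f : 𝓢(ℂ, ℂ)) ξ := funext (ph_eq f)
  rw [h]
  exact (mm_meas.aestronglyMeasurable).mul (𝓕 f : 𝓢(ℂ, ℂ)).continuous.aestronglyMeasurable

lemma ph_int (f : 𝓢(ℂ, ℂ)) (n : ℕ) : Integrable (fun v => ‖v‖ ^ n * ‖ph f v‖) := by
  refine Integrable.mono' ((𝓕 f : 𝓢(ℂ, ℂ)).integrable_pow_mul volume n) ?_ ?_
  · exact ((continuous_norm.pow n).aestronglyMeasurable).mul (ph_meas f).norm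
  · refine Eventually.of_forall fun v => ?_
    rw [ph_eq, norm_mul, norm_pow, norm_norm, norm_norm, norm_mul]
    refine mul_le_mul_of_nonneg_left ?_ (by positivity)
    calc ‖mm v‖ * ‖(𝓕 f : 𝓢(ℂ, ℂ)) v‖ ≤ 1 * ‖(𝓕 f : 𝓢(ℂ, ℂ)) v‖ :=
          mul_le_mul_of_nonneg_right (mm_norm v) (norm_nonneg _)
      _ = _ := one_mul _

lemma ph_integrable (f : 𝓢(ℂ, ℂ)) : Integrable (ph f) := by
  have h := ph_int f 0
  simp only [pow_zero, one_mul] at h
  exact (integrable_norm_iff (ph_meas f)).1 h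

lemma Beu_eq (f : 𝓢(ℂ, ℂ)) : Beu f = 𝓕⁻ (ph f) := rfl

lemma Beu_contDiff (f : 𝓢(ℂ, ℂ)) : ContDiff ℝ ∞ (Beu f) := by
  have h1 : ContDiff ℝ ∞ (𝓕 (ph f)) :=
    Real.contDiff_fourier (N := ⊤) (fun n _ => ph_int f n)
  have h2 : Beu f = fun z => 𝓕 (ph f) (-z) := by
    funext z
    rw [Beu_eq, Real.fourierInv_eq_fourier_neg]
  rw [h2]
  exact h1.comp contDiff_neg

/-- symmetry of the transform -/
lemma sym (f h : 𝓢(ℂ, ℂ)) : ∫ z, Beu f z * h z = ∫ z, f z * Beu h z := by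
  have key : ∀ (φ : ℂ → ℂ) (g : ℂ → ℂ), Integrable φ → Integrable g →
      ∫ z, 𝓕⁻ φ z * g z = ∫ x, φ x * 𝓕⁻ g x := by
    intro φ g hφ hg
    have h1 := VectorFourier.integral_fourierIntegral_smul_eq_flip (μ := (volume : Measure ℂ))
      (ν := (volume : Measure ℂ)) (L := -innerₗ ℂ) (f := φ) (g := g)
      (Real.continuous_fourierChar) (by
        simp only [LinearMap.neg_apply, innerₗ_apply_apply]
        fun_prop) hφ hg
    have h2 : ∀ x, VectorFourier.fourierIntegral Real.fourierChar volume (-innerₗ ℂ).flip g x =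
        𝓕⁻ g x := by
      intro x
      rw [Real.fourierInv_eq, VectorFourier.fourierIntegral]
      refine integral_congr_ae (Eventually.of_forall fun v => ?_)
      simp [real_inner_comm]
    simp only [h2, smul_eq_mul] at h1
    exact h1
  have e1 : ∫ z, Beu f z * h z = ∫ x, ph f x * 𝓕⁻ (h : ℂ → ℂ) x :=
    key (ph f) h (ph_integrable f) h.integrable
  have e2 : ∫ z, f z * Beu h z = ∫ x, ph h x * 𝓕⁻ (f : ℂ → ℂ) x := by
    rw [← key (ph h) f (ph_integrable h) f.integrable]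
    refine integral_congr_ae (Eventually.of_forall fun v => ?_)
    simp only [Beu_eq]
    ring
  rw [e1, e2, ← integral_neg_eq_self]
  refine integral_congr_ae (Eventually.of_forall fun v => ?_)
  simp only [ph, mm_neg, Real.fourierInv_eq_fourier_neg, neg_neg]
  ring

/-- the pairing bound -/
lemma pairing {p q C : ℝ} (hp : 1 < p) (hq : 1 < q) (hpq : 1 / p + 1 / q = 1) (hC : 0 ≤ C)
    (H : ∀ f : 𝓢(ℂ, ℂ), eLpNorm (Beu f) (ENNReal.ofReal p) (volume : Measure ℂ)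
      ≤ ENNReal.ofReal C * eLpNorm f (ENNReal.ofReal p) (volume : Measure ℂ))
    (f h : 𝓢(ℂ, ℂ)) : ‖∫ z, Beu f z * h z‖ ≤
      (C * (eLpNorm f (ENNReal.ofReal q) volume).toReal) *
        (eLpNorm h (ENNReal.ofReal p) volume).toReal := by
  rw [sym]
  have hconj : q.HolderConjugate p := by
    rw [Real.holderConjugate_iff]
    refine ⟨hq, ?_⟩
    rw [← hpq]
    ring
  have hfne : eLpNorm f (ENNReal.ofReal q) (volume : Measure ℂ) ≠ ⊤ :=
    (f.memLp (ENNReal.ofReal q) volume).2.ne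
  have hhne : eLpNorm h (ENNReal.ofReal p) (volume : Measure ℂ) ≠ ⊤ :=
    (h.memLp (ENNReal.ofReal p) volume).2.ne
  have hp0 : ENNReal.ofReal p ≠ 0 := by
    rw [Ne, ENNReal.ofReal_eq_zero]; linarith
  have hq0 : ENNReal.ofReal q ≠ 0 := by
    rw [Ne, ENNReal.ofReal_eq_zero]; linarith
  have h1 : ‖∫ z, f z * Beu h z‖ₑ ≤ eLpNorm f (ENNReal.ofReal q) volume *
      eLpNorm (Beu h) (ENNReal.ofReal p) volume := by
    refine (enorm_integral_le_lintegral_enorm _).trans ?_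
    have h2 := ENNReal.lintegral_mul_le_Lp_mul_Lq (volume : Measure ℂ) hconj
      (f := fun z => ‖f z‖ₑ) (g := fun z => ‖Beu h z‖ₑ)
      f.continuous.enorm.aemeasurable
      (Beu_contDiff h).continuous.enorm.aemeasurable
    rw [eLpNorm_eq_lintegral_rpow_enorm_toReal hq0 ENNReal.ofReal_ne_top,
      eLpNorm_eq_lintegral_rpow_enorm_toReal hp0 ENNReal.ofReal_ne_top,
      ENNReal.toReal_ofReal (by linarith), ENNReal.toReal_ofReal (by linarith)]
    refine le_trans (le_of_eq ?_) h2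
    refine lintegral_congr fun z => ?_
    rw [Pi.mul_apply, enorm_mul]
  have h3 : ‖∫ z, f z * Beu h z‖ₑ ≤ ENNReal.ofReal (C * (eLpNorm f (ENNReal.ofReal q) volume).toReal *
      (eLpNorm h (ENNReal.ofReal p) volume).toReal) := by
    refine h1.trans ?_
    rw [ENNReal.ofReal_mul (mul_nonneg hC ENNReal.toReal_nonneg), ENNReal.ofReal_mul hC,
      ENNReal.ofReal_toReal hfne, ENNReal.ofReal_toReal hhne, mul_comm (ENNReal.ofReal C), mul_assoc]
    exact mul_le_mul_right (H h) _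
  rw [← ofReal_norm] at h3
  exact (ENNReal.ofReal_le_ofReal_iff (mul_nonneg (mul_nonneg hC ENNReal.toReal_nonneg)
    ENNReal.toReal_nonneg)).1 h3

end Pool.Agent.W214.BA
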